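import Pool.Agent.MP_d9582c_gt.H1.Final
import Pool.Agent.MP_d9582c_gt.H61.Car
import Pool.Agent.MP_d9582c_gt.H63.Loc

/-!
Existence and approximation of the analytic `L²`-torsion without `L²`-acyclicity.
-/

open scoped Manifold ContDiff Topology
open MeasureTheory Set Filter Pool.Agent.MP_d9582c_gt Pool.Agent.MP_d9582c_gt.Spec

universe u v

/-- Let `G` satisfy the Approximation Conjecture for Fuglede-Kadison determinants and act properly,
freely, cocompactly and isometrically on the Riemannian manifold `M`.  Suppose that `M` is of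
analytic determinant class, or that all determinants over `G` are positive, or that `G` is
residually finite.  Then the analytic `L²`-torsion `ρ` of `M` is defined and, for every normal
chain `N`, the analytic `L²`-torsions `ρ' i` of the quotients of `M` by `N i` are defined for all
large `i` (also whenever `N i` has finite index or all determinants over `G / N i` are positive),
and they converge to `ρ`. -/
theorem Pool.Agent.Results.MP_d9582c_gt.TorsionLimit.result {n : ℕ} {M : Type u}
    [TopologicalSpace M] [T2Space M] [SecondCountableTopology M] [Nonempty M]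
    [ChartedSpace (EuclideanSpace ℝ (Fin n)) M] [IsManifold 𝓘(ℝ, EuclideanSpace ℝ (Fin n)) ∞ M]
    [MeasurableSpace M] [BorelSpace M]
    {G : Type v} [Group G] [MulAction G M] [ProperlyDiscontinuousSMul G M]
    (g : RMetric (EuclideanSpace ℝ (Fin n)) M) (μ : Measure M)
    (hμ : IsVolume g (fun i => EuclideanSpace.single i 1) volume μ) (hact : IsDeckAction g G)
    (hG : DetApprox G) (N : ℕ → Subgroup G) [∀ i, (N i).Normal] (hN : H34.IsChain N)
    (F : ℕ → Set M) (hF : ∀ i, IsFundamentalDomain (N i) (F i) μ) {ε : ℝ} (hε : 0 < ε)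
    (hdet : DetClass n g μ (⊥ : Subgroup G) univ ε ∨ DetPos G ∨ Group.ResiduallyFinite G) :
    ∃ (ρ : ℝ) (ρ' : ℕ → ℝ) (k : ℕ), TorsionEq n g μ (⊥ : Subgroup G) univ ε ρ ∧
      (∀ i, k ≤ i ∨ (N i).FiniteIndex ∨ DetPos (G ⧸ N i) →
        TorsionEq n g μ (N i) (F i) ε (ρ' i)) ∧
      Tendsto ρ' atTop (𝓝 ρ) :=
  H1.main H1.eucAll H1.localAll H1.mellin H1.long (H1.finDet H1.eigOwn) H61.car H63.loc
    g μ hμ hact hG N hN F hF hε hdet
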